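import Mathlib

/-!
# Weights for the kernel calculus of block KGH

`w c u = (1 + |u| ^ (-1/4)) e ^ (-c |u|)`: integrability, polynomial factors, convolution.
-/

open MeasureTheory Set Filter Topology

noncomputable section

namespace Pool.Agent.KGH.H16

/-- the weight -/
def w (c u : ℝ) : ℝ := (1 + |u| ^ (-(1 / 4) : ℝ)) * Real.exp (-(c * |u|))

theorem w_nonneg (c u : ℝ) : 0 ≤ w c u := by
  unfold w
  positivity

theorem w_neg (c u : ℝ) : w c (-u) = w c u := by
  unfold w
  rw [abs_neg]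

theorem w_meas (c : ℝ) : Measurable (w c) := by
  unfold w
  fun_prop

theorem exp_le_w (c u : ℝ) : Real.exp (-(c * |u|)) ≤ w c u := by
  unfold w
  have h1 : 0 ≤ |u| ^ (-(1 / 4) : ℝ) := by positivity
  have h2 : 0 < Real.exp (-(c * |u|)) := Real.exp_pos _
  nlinarith

theorem w_anti {c c' : ℝ} (h : c' ≤ c) (u : ℝ) : w c u ≤ w c' u := by
  unfold w
  refine mul_le_mul_of_nonneg_left (Real.exp_le_exp.2 ?_) (by positivity)
  have := abs_nonneg u
  nlinarith

theorem w_split (c d u : ℝ) : w (c + d) u = w c u * Real.exp (-(d * |u|)) := by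
  unfold w
  rw [mul_assoc, ← Real.exp_add]
  congr 2
  ring

/-- polynomial factors are absorbed -/
theorem pow_mul_w_le {c d : ℝ} (h : d < c) (l : ℕ) :
    ∃ C : ℝ, 0 < C ∧ ∀ u, |u| ^ l * w c u ≤ C * w d u := by
  refine ⟨(l.factorial : ℝ) / (c - d) ^ l, by
    have : 0 < c - d := by linarith
    positivity, fun u => ?_⟩
  have hcd : 0 < c - d := by linarith
  have e1 : w c u = w d u * Real.exp (-((c - d) * |u|)) := by
    rw [← w_split]
    congr 1
    ring
  have h1 : ((c - d) * |u|) ^ l / (l.factorial : ℝ) ≤ Real.exp ((c - d) * |u|) :=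
    Real.pow_div_factorial_le_exp _ (by positivity) l
  have hf : (0 : ℝ) < l.factorial := by positivity
  have h2 : |u| ^ l * Real.exp (-((c - d) * |u|)) ≤ (l.factorial : ℝ) / (c - d) ^ l := by
    rw [Real.exp_neg, ← div_eq_mul_inv, div_le_div_iff₀ (Real.exp_pos _) (by positivity)]
    rw [div_le_iff₀ hf, mul_pow] at h1
    nlinarith [h1]
  calc |u| ^ l * w c u = (|u| ^ l * Real.exp (-((c - d) * |u|))) * w d u := by
        rw [e1]; ring
    _ ≤ _ := mul_le_mul_of_nonneg_right h2 (w_nonneg _ _)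

theorem integrable_abs {f : ℝ → ℝ} (hf : IntegrableOn f (Ioi 0)) :
    Integrable (fun x => f |x|) := by
  have h1 : IntegrableOn (fun x => f |x|) (Ioi 0) :=
    hf.congr_fun (fun x hx => by rw [abs_of_pos hx]) measurableSet_Ioi
  have h2 : IntegrableOn (fun x => f |x|) (Iic 0) := by
    rw [← Measure.map_neg_eq_self (volume : Measure ℝ)]
    let m : MeasurableEmbedding fun x : ℝ => -x := (Homeomorph.neg ℝ).measurableEmbedding
    rw [m.integrableOn_map_iff]
    simp_rw [Function.comp_def, abs_neg, neg_preimage, neg_Iic, neg_zero]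
    exact Iff.mpr integrableOn_Ici_iff_integrableOn_Ioi h1
  rw [← integrableOn_univ, ← Iic_union_Ioi (a := (0 : ℝ))]
  exact h2.union h1

/-- `|u| ^ p e ^ (-c |u|)` is integrable for `p > -1` -/
theorem int_rpow_exp {p c : ℝ} (hp : -1 < p) (hc : 0 < c) :
    Integrable (fun u : ℝ => |u| ^ p * Real.exp (-(c * |u|))) := by
  have h1 : IntegrableOn (fun u : ℝ => u ^ p * Real.exp (-c * u ^ (1 : ℝ))) (Ioi 0) :=
    integrableOn_rpow_mul_exp_neg_mul_rpow hp one_pos hc
  exact integrable_abs (f := fun u => u ^ p * Real.exp (-(c * u))) (by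
    refine h1.congr_fun (fun u hu => ?_) measurableSet_Ioi
    simp only [Real.rpow_one, neg_mul])

theorem w_integrable {c : ℝ} (hc : 0 < c) : Integrable (w c) := by
  have h1 := int_rpow_exp (p := 0) (by norm_num) hc
  have h2 := int_rpow_exp (p := -(1 / 4)) (by norm_num) hc
  refine (h1.add h2).congr (Eventually.of_forall fun u => ?_)
  simp only [Pi.add_apply, w, Real.rpow_zero]
  ring

theorem w_sq_le (c u : ℝ) : w c u ^ 2 ≤
    2 * (|u| ^ (0 : ℝ) * Real.exp (-(2 * c * |u|))) +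
      2 * (|u| ^ (-(1 / 2) : ℝ) * Real.exp (-(2 * c * |u|))) := by
  have e1 : (|u| ^ (-(1 / 4) : ℝ)) ^ 2 = |u| ^ (-(1 / 2) : ℝ) := by
    rw [← Real.rpow_natCast, ← Real.rpow_mul (abs_nonneg u)]
    norm_num
  have e2 : Real.exp (-(c * |u|)) ^ 2 = Real.exp (-(2 * c * |u|)) := by
    rw [← Real.exp_nat_mul]
    congr 1
    push_cast
    ring
  unfold w
  rw [mul_pow, e2, Real.rpow_zero, one_mul, ← e1]
  have h3 : 0 < Real.exp (-(2 * c * |u|)) := Real.exp_pos _
  nlinarith [sq_nonneg (1 - |u| ^ (-(1 / 4) : ℝ)), mul_nonneg h3.le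
    (sq_nonneg (1 - |u| ^ (-(1 / 4) : ℝ)))]

theorem w_sq_integrable {c : ℝ} (hc : 0 < c) : Integrable (fun u => w c u ^ 2) := by
  have h1 := (int_rpow_exp (p := 0) (c := 2 * c) (by norm_num) (by positivity)).const_mul 2
  have h2 := (int_rpow_exp (p := -(1 / 2)) (c := 2 * c) (by norm_num) (by positivity)).const_mul 2
  refine (h1.add h2).mono' (((w_meas c).pow_const 2).aestronglyMeasurable)
    (Eventually.of_forall fun u => ?_)
  rw [Real.norm_of_nonneg (sq_nonneg _)]
  exact w_sq_le c u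

/-- the product of two weights, with the exponential of the distance split off -/
theorem w_mul_le {c : ℝ} (hc : 0 < c) (u v : ℝ) :
    w c v * w c (u - v) ≤
      Real.exp (-(c / 2 * |u|)) * (w (c / 2) v ^ 2 + w (c / 2) (u - v) ^ 2) := by
  have e : ∀ x, w c x = w (c / 2) x * Real.exp (-(c / 2 * |x|)) := fun x => by
    rw [← w_split]
    congr 1
    ring
  rw [e v, e (u - v)]
  have h1 : Real.exp (-(c / 2 * |v|)) * Real.exp (-(c / 2 * |u - v|)) ≤
      Real.exp (-(c / 2 * |u|)) := by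
    rw [← Real.exp_add]
    refine Real.exp_le_exp.2 ?_
    have h2 : |u| ≤ |v| + |u - v| := by
      have := abs_add_le v (u - v)
      simpa using this
    nlinarith
  have h3 := w_nonneg (c / 2) v
  have h4 := w_nonneg (c / 2) (u - v)
  have h5 : w (c / 2) v * w (c / 2) (u - v) ≤ w (c / 2) v ^ 2 + w (c / 2) (u - v) ^ 2 := by
    nlinarith [sq_nonneg (w (c / 2) v - w (c / 2) (u - v))]
  calc w (c / 2) v * Real.exp (-(c / 2 * |v|)) * (w (c / 2) (u - v) * Real.exp (-(c / 2 * |u - v|)))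
      = (Real.exp (-(c / 2 * |v|)) * Real.exp (-(c / 2 * |u - v|))) *
        (w (c / 2) v * w (c / 2) (u - v)) := by ring
    _ ≤ Real.exp (-(c / 2 * |u|)) * (w (c / 2) v * w (c / 2) (u - v)) :=
        mul_le_mul_of_nonneg_right h1 (mul_nonneg h3 h4)
    _ ≤ _ := mul_le_mul_of_nonneg_left h5 (Real.exp_pos _).le

theorem conv_integrable {c : ℝ} (hc : 0 < c) (u : ℝ) :
    Integrable (fun v => w c v * w c (u - v)) := by
  have hc2 : 0 < c / 2 := by positivity
  have h1 := w_sq_integrable hc2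
  have h2 : Integrable (fun v => w (c / 2) (u - v) ^ 2) :=
    h1.comp_sub_left u
  refine ((h1.add h2).const_mul (Real.exp (-(c / 2 * |u|)))).mono'
    (((w_meas c).mul ((w_meas c).comp (measurable_const.sub measurable_id))).aestronglyMeasurable)
    (Eventually.of_forall fun v => ?_)
  rw [Real.norm_of_nonneg (mul_nonneg (w_nonneg _ _) (w_nonneg _ _))]
  exact w_mul_le hc u v

/-- the convolution estimate -/
theorem conv_le {c : ℝ} (hc : 0 < c) :
    ∃ C : ℝ, 0 < C ∧ ∀ u, ∫ v, w c v * w c (u - v) ≤ C * w (c / 2) u := by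
  have hc2 : 0 < c / 2 := by positivity
  have h1 := w_sq_integrable hc2
  refine ⟨2 * (∫ v, w (c / 2) v ^ 2) + 1, ?_, fun u => ?_⟩
  · have : 0 ≤ ∫ v, w (c / 2) v ^ 2 := integral_nonneg fun v => sq_nonneg _
    linarith
  have h2 : Integrable (fun v => w (c / 2) (u - v) ^ 2) := h1.comp_sub_left u
  have e2 : ∫ v, w (c / 2) (u - v) ^ 2 = ∫ v, w (c / 2) v ^ 2 :=
    integral_sub_left_eq_self (fun v => w (c / 2) v ^ 2) volume u
  have h0 : 0 ≤ ∫ v, w (c / 2) v ^ 2 := integral_nonneg fun v => sq_nonneg _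
  calc ∫ v, w c v * w c (u - v)
      ≤ ∫ v, Real.exp (-(c / 2 * |u|)) * (w (c / 2) v ^ 2 + w (c / 2) (u - v) ^ 2) :=
        integral_mono (conv_integrable hc u) ((h1.add h2).const_mul _) fun v => w_mul_le hc u v
    _ = Real.exp (-(c / 2 * |u|)) * (2 * ∫ v, w (c / 2) v ^ 2) := by
        rw [integral_const_mul, integral_add h1 h2, e2]
        ring
    _ ≤ w (c / 2) u * (2 * (∫ v, w (c / 2) v ^ 2) + 1) := by
        refine mul_le_mul (exp_le_w _ _) (by linarith) (by linarith) (w_nonneg _ _)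
    _ = _ := by ring

/-- tails: on `|v| ≥ R` (or `|u - v| ≥ R`) the product gains `e ^ (-c R / 2)` -/
theorem w_tail {c R v : ℝ} (hc : 0 < c) (h : R ≤ |v|) :
    w c v ≤ Real.exp (-(c / 2 * R)) * w (c / 2) v := by
  have e : w c v = w (c / 2) v * Real.exp (-(c / 2 * |v|)) := by
    rw [← w_split]
    congr 1
    ring
  rw [e, mul_comm]
  refine mul_le_mul_of_nonneg_right (Real.exp_le_exp.2 ?_) (w_nonneg _ _)
  have : c / 2 * R ≤ c / 2 * |v| := mul_le_mul_of_nonneg_left h (by positivity)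
  linarith

/-- exponentials beat powers of `z` -/
theorem exp_le_pow {c : ℝ} (hc : 0 < c) (W : ℕ) :
    ∃ C : ℝ, 0 < C ∧ ∀ z : ℝ, 0 < z → Real.exp (-(c * z)) ≤ C * (z ^ W)⁻¹ := by
  refine ⟨(W.factorial : ℝ) / c ^ W, by positivity, fun z hz => ?_⟩
  have h1 : (c * z) ^ W / (W.factorial : ℝ) ≤ Real.exp (c * z) :=
    Real.pow_div_factorial_le_exp _ (by positivity) W
  have hf : (0 : ℝ) < W.factorial := by positivity
  rw [Real.exp_neg, div_mul_eq_mul_div, ← div_eq_mul_inv, div_div, inv_eq_one_div,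
    div_le_div_iff₀ (Real.exp_pos _) (by positivity)]
  rw [div_le_iff₀ hf, mul_pow] at h1
  nlinarith [h1]

end Pool.Agent.KGH.H16
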